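import Pool.Agent.H5.RPG.Stmts

/-!
Row RIT of the board rpg: `R i g` as a least fixed point.
-/

set_option autoImplicit false

namespace Pool.RPG

open Filter TMLib Pool.PG

namespace RITaux

theorem getD_map (f : ℕ → Bool) (n v : ℕ) :
    ((List.range n).map f).getD v false = true ↔ v < n ∧ f v = true := by
  by_cases h : v < n
  · simp [List.getD, h]
  · simp [List.getD, h]

theorem getD_lt {T : List Bool} {v : ℕ} (h : T.getD v false = true) : v < T.length := by
  by_contra hn
  rw [List.getD_eq_default _ _ (not_lt.1 hn)] at h
  exact Bool.false_ne_true h

theorem ast_iff (i : Bool) (g : Game) (T : List Bool) (v : ℕ) :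
    (ast i g T).getD v false = true ↔ v < g.length ∧ (T.getD v false = true ∨
      (if own g v = i then ∃ w ∈ suc g v, T.getD w false = true
        else ∀ w ∈ suc g v, T.getD w false = true)) := by
  unfold ast
  rw [getD_map, Bool.or_eq_true]
  refine and_congr_right fun _ => or_congr_right ?_
  by_cases h : own g v = i
  · rw [if_pos h, if_pos h, List.any_eq_true]
  · rw [if_neg h, if_neg h, List.all_eq_true]

theorem ast_length (i : Bool) (g : Game) (T : List Bool) : (ast i g T).length = g.length := by
  unfold ast
  rw [List.length_map, List.length_range]

theorem K_length (i : Bool) (g : Game) : (K i g).length = g.length := by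
  unfold K
  have h : ∀ m : ℕ, ((kst g)^[m] (q0 i g)).length = g.length := by
    intro m
    induction m with
    | zero =>
      show (q0 i g).length = g.length
      unfold q0
      rw [List.length_map, List.length_range]
    | succ m _ =>
      rw [Function.iterate_succ_apply']
      unfold kst
      rw [List.length_map, List.length_range]
  exact h _

theorem it_length (i : Bool) (g : Game) (m : ℕ) :
    ((ast i g)^[m] (K i g)).length = g.length := by
  induction m with
  | zero => exact K_length i g
  | succ m _ =>
    rw [Function.iterate_succ_apply', ast_length]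

theorem ast_congr (i : Bool) (g : Game) {T T' : List Bool}
    (h : ∀ v, T.getD v false = true ↔ T'.getD v false = true) (v : ℕ) :
    (ast i g T).getD v false = true ↔ (ast i g T').getD v false = true := by
  rw [ast_iff, ast_iff, h v]
  simp only [h]

theorem it_mono (i : Bool) (g : Game) (m : ℕ) {v : ℕ}
    (h : ((ast i g)^[m] (K i g)).getD v false = true) :
    ((ast i g)^[m + 1] (K i g)).getD v false = true := by
  rw [Function.iterate_succ_apply', ast_iff]
  exact ⟨it_length i g m ▸ getD_lt h, Or.inl h⟩

theorem it_mono' (i : Bool) (g : Game) {m k : ℕ} (hmk : m ≤ k) {v : ℕ}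
    (h : ((ast i g)^[m] (K i g)).getD v false = true) :
    ((ast i g)^[k] (K i g)).getD v false = true := by
  induction k, hmk using Nat.le_induction with
  | base => exact h
  | succ k _ ih => exact it_mono i g k ih

/-- the iterates are constant after `g.length` steps -/
theorem it_stable (i : Bool) (g : Game) {v : ℕ}
    (h : ((ast i g)^[g.length + 1] (K i g)).getD v false = true) :
    ((ast i g)^[g.length] (K i g)).getD v false = true := by
  classical
  let A : ℕ → Finset ℕ := fun m => (Finset.range g.length).filter
    fun v => ((ast i g)^[m] (K i g)).getD v false = true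
  have hA : ∀ m v, v ∈ A m ↔ ((ast i g)^[m] (K i g)).getD v false = true := by
    intro m v
    show v ∈ Finset.filter _ _ ↔ _
    rw [Finset.mem_filter, Finset.mem_range]
    exact ⟨fun h => h.2, fun h => ⟨it_length i g m ▸ getD_lt h, h⟩⟩
  have hsub : ∀ m, A m ⊆ A (m + 1) := by
    intro m v hv
    rw [hA] at hv ⊢
    exact it_mono i g m hv
  have hcard : ∀ m, (A m).card ≤ g.length := by
    intro m
    refine (Finset.card_filter_le _ _).trans ?_
    rw [Finset.card_range]
  have hstep : ∀ k, A k = A (k + 1) → ∀ j, k ≤ j → A j = A (j + 1) := by
    intro k hk j hj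
    induction j, hj using Nat.le_induction with
    | base => exact hk
    | succ j _ ih =>
      ext v
      rw [hA, hA, Function.iterate_succ_apply', Function.iterate_succ_apply' (ast i g) (j + 1)]
      apply ast_congr
      intro v
      rw [← hA, ← hA, ih]
  have hgrow : ∀ m, (∀ k < m, A k ≠ A (k + 1)) → m ≤ (A m).card := by
    intro m
    induction m with
    | zero => intro _; exact Nat.zero_le _
    | succ m ih =>
      intro hk
      have h1 := ih fun k hk' => hk k (by omega)
      have h2 : (A m).card < (A (m + 1)).card :=
        Finset.card_lt_card (Finset.ssubset_iff_subset_ne.2 ⟨hsub m, hk m (by omega)⟩)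
      omega
  have hex : ∃ k < g.length + 1, A k = A (k + 1) := by
    by_contra hcon
    push Not at hcon
    have h1 := hgrow (g.length + 1) hcon
    have h2 := hcard (g.length + 1)
    omega
  obtain ⟨k, hk, hkA⟩ := hex
  have h1 := hstep k hkA g.length (by omega)
  rw [← hA, ← h1, hA] at h
  exact h

end RITaux

open RITaux

theorem rit_thm : RITStmt := by
  intro g i
  refine ⟨it_length i g _, ?_⟩
  intro v
  constructor
  · intro hv
    refine ⟨it_length i g g.length ▸ getD_lt hv, ?_⟩
    intro T hK hcl
    have key : ∀ m u, ((ast i g)^[m] (K i g)).getD u false = true → u ∈ T := by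
      intro m
      induction m with
      | zero => exact fun u hu => hK u hu
      | succ m ih =>
        intro u hu
        rw [Function.iterate_succ_apply', ast_iff] at hu
        obtain ⟨hlt, hu | hu⟩ := hu
        · exact ih u hu
        · apply hcl u hlt
          by_cases h : own g u = i
          · rw [if_pos h] at hu ⊢
            obtain ⟨w, hw, hw'⟩ := hu
            exact ⟨w, hw, ih w hw'⟩
          · rw [if_neg h] at hu ⊢
            exact fun w hw => ih w (hu w hw)
    exact key _ v hv
  · rintro ⟨hlt, hT⟩
    refine hT {u | (R i g).getD u false = true} ?_ ?_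
    · intro u hu
      exact it_mono' i g (Nat.zero_le _) hu
    · intro u hu hcl
      apply it_stable
      rw [Function.iterate_succ_apply', ast_iff]
      exact ⟨hu, Or.inr hcl⟩

end Pool.RPG
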